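import Pool.Agent.H88.CL.Basic

/-! Closing lemma on the torus: closeness of the perturbed map. -/

set_option autoImplicit false

open Set Function Topology Metric Filter

namespace Pool.Agent.H63.CL

open Pool.Agent.H88.CL

theorem lip_of_fderiv {d : ℕ} {F : E d → E d} {L : ℝ} (hF : Differentiable ℝ F)
    (hb : ∀ x, ‖fderiv ℝ F x‖ ≤ L) (u v : E d) : ‖F u - F v‖ ≤ L * ‖u - v‖ :=
  Convex.norm_image_sub_le_of_norm_fderiv_le (𝕜 := ℝ) (fun x _ => hF x) (fun x _ => hb x)
    convex_univ (mem_univ v) (mem_univ u)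

theorem fderiv_Gm {d : ℕ} {F U : E d → E d} (hF : Differentiable ℝ F) (hU : Differentiable ℝ U)
    (u : E d) : fderiv ℝ (Gm F U) u =
      fderiv ℝ F (u + U u) + (fderiv ℝ F (u + U u)).comp (fderiv ℝ U u) := by
  have h1 : HasFDerivAt (fun x => x + U x)
      (ContinuousLinearMap.id ℝ (E d) + fderiv ℝ U u) u :=
    (hasFDerivAt_id u).add (hU u).hasFDerivAt
  have h2 : HasFDerivAt (Gm F U)
      ((fderiv ℝ F (u + U u)).comp (ContinuousLinearMap.id ℝ (E d) + fderiv ℝ U u)) u :=
    (hF (u + U u)).hasFDerivAt.comp u h1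
  rw [h2.fderiv, ContinuousLinearMap.comp_add, ContinuousLinearMap.comp_id]

theorem pf_CLS (h : T_MOD) : T_CLS := by
  intro d L F F' σ β γ U ω η hF hU hβ hω hσ hβ0 hγ hη h1 h2 h3
  have hL := hF.pos
  have hFd : Differentiable ℝ F := hF.c2.differentiable (by norm_num)
  have hUd : Differentiable ℝ U := hU.c2.differentiable (by norm_num)
  have hA : ∀ u, ‖fderiv ℝ F (u + U u) - fderiv ℝ F u‖ ≤ L * σ := by
    intro u
    refine (hF.lp _ _).trans ?_
    rw [add_sub_cancel_left]
    exact mul_le_mul_of_nonneg_left (hU.s u) hL.le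
  have hB : ∀ u, ‖(fderiv ℝ F (u + U u)).comp (fderiv ℝ U u)‖ ≤ L * β := by
    intro u
    refine (ContinuousLinearMap.opNorm_comp_le _ _).trans ?_
    exact mul_le_mul (hF.b _) (hU.b u) (norm_nonneg _) hL.le
  have hd : ∀ u, fderiv ℝ (Gm F U) u - fderiv ℝ F u = (fderiv ℝ F (u + U u) - fderiv ℝ F u) +
      (fderiv ℝ F (u + U u)).comp (fderiv ℝ U u) := by
    intro u
    rw [fderiv_Gm hFd hUd u]
    abel
  have hH : ∀ u v, ‖fderiv ℝ F (u + U u) - fderiv ℝ F (v + U v)‖ ≤ 3 / 2 * L * ‖u - v‖ := by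
    intro u v
    refine (hF.lp _ _).trans ?_
    have e1 : u + U u - (v + U v) = (u - v) + (U u - U v) := by abel
    have e2 : ‖u + U u - (v + U v)‖ ≤ 3 / 2 * ‖u - v‖ := by
      rw [e1]
      refine (norm_add_le _ _).trans ?_
      have e3 := lip_of_fderiv hUd hU.b u v
      have e4 : β * ‖u - v‖ ≤ 1 / 2 * ‖u - v‖ := mul_le_mul_of_nonneg_right hβ (norm_nonneg _)
      linarith
    have e5 := mul_le_mul_of_nonneg_left e2 hL.le
    linarith
  refine ⟨fun u => ?_, fun u => ?_, fun u v huv => ?_⟩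
  · have e1 := lip_of_fderiv hFd hF.b (u + U u) u
    rw [add_sub_cancel_left] at e1
    have e2 : L * ‖U u‖ ≤ L * σ := mul_le_mul_of_nonneg_left (hU.s u) hL.le
    have e3 : 0 ≤ L * β := by positivity
    have e4 : Gm F U u = F (u + U u) := rfl
    rw [e4]
    linarith
  · rw [hd u]
    refine (norm_add_le _ _).trans ?_
    have := hA u
    have := hB u
    linarith
  · rw [hd u, hd v]
    set A : E d → (E d →L[ℝ] E d) := fun u => fderiv ℝ F (u + U u) - fderiv ℝ F u with hAdef
    set B : E d → (E d →L[ℝ] E d) := fun u => (fderiv ℝ F (u + U u)).comp (fderiv ℝ U u)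
      with hBdef
    have hr : 0 < ‖u - v‖ := norm_pos_iff.2 (sub_ne_zero.2 huv)
    have e1 : A u + B u - (A v + B v) = (A u - A v) + (B u - B v) := by abel
    have a1 : ‖A u - A v‖ ≤ 2 * L * σ := by
      refine (norm_sub_le _ _).trans ?_
      have := hA u
      have := hA v
      linarith
    have a2 : ‖A u - A v‖ ≤ 3 * L * ‖u - v‖ := by
      have e2 : A u - A v = (fderiv ℝ F (u + U u) - fderiv ℝ F (v + U v)) -
          (fderiv ℝ F u - fderiv ℝ F v) := sub_sub_sub_comm _ _ _ _
      rw [e2]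
      refine (norm_sub_le _ _).trans ?_
      have e3 := hH u v
      have e4 := hF.lp u v
      have e5 : 0 ≤ L * ‖u - v‖ := by positivity
      linarith
    have b1 : ‖B u - B v‖ ≤ 2 * L * β := by
      refine (norm_sub_le _ _).trans ?_
      have := hB u
      have := hB v
      linarith
    have b2 : ‖B u - B v‖ ≤ L * (2 * β + γ) * ‖u - v‖ := by
      have e2 : B u - B v = (fderiv ℝ F (u + U u) - fderiv ℝ F (v + U v)).comp (fderiv ℝ U u) +
          (fderiv ℝ F (v + U v)).comp (fderiv ℝ U u - fderiv ℝ U v) := by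
        rw [hBdef]
        simp only [ContinuousLinearMap.sub_comp, ContinuousLinearMap.comp_sub]
        abel
      rw [e2]
      refine (norm_add_le _ _).trans ?_
      have e3 : ‖(fderiv ℝ F (u + U u) - fderiv ℝ F (v + U v)).comp (fderiv ℝ U u)‖ ≤
          3 / 2 * L * ‖u - v‖ * β := by
        refine (ContinuousLinearMap.opNorm_comp_le _ _).trans ?_
        exact mul_le_mul (hH u v) (hU.b u) (norm_nonneg _) (by positivity)
      have e4 : ‖(fderiv ℝ F (v + U v)).comp (fderiv ℝ U u - fderiv ℝ U v)‖ ≤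
          L * (γ * ‖u - v‖) := by
        refine (ContinuousLinearMap.opNorm_comp_le _ _).trans ?_
        exact mul_le_mul (hF.b _) (hU.g u v) (norm_nonneg _) hL.le
      have e5 : 0 ≤ L * ‖u - v‖ * β := by positivity
      nlinarith
    have m1 : min (2 * L * σ) (3 * L * ‖u - v‖) ≤ η / 2 * ω ‖u - v‖ := by
      refine h ω hω (2 * L * σ) (3 * L) (η / 2) ‖u - v‖ (by positivity) (by positivity)
        (by positivity) hr ?_
      have e2 : 2 * L * σ / (3 * L) = 2 * σ / 3 := by field_simp
      rw [e2]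
      exact h2
    have m2 : min (2 * L * β) (L * (2 * β + γ) * ‖u - v‖) ≤ η / 2 * ω ‖u - v‖ := by
      refine h ω hω (2 * L * β) (L * (2 * β + γ)) (η / 2) ‖u - v‖ (by positivity)
        (by positivity) (by positivity) hr ?_
      have e2 : 2 * L * β / (L * (2 * β + γ)) = 2 * β / (2 * β + γ) := by
        have : 2 * β + γ ≠ 0 := by positivity
        field_simp
      rw [e2]
      exact h3
    show ‖A u + B u - (A v + B v)‖ ≤ _
    rw [e1]
    refine (norm_add_le _ _).trans ?_
    have := le_min a1 a2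
    have := le_min b1 b2
    linarith

end Pool.Agent.H63.CL
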